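import Mathlib
import Pool.Agent.H77R2.AssocLie

set_option autoImplicit false

/-!
# A triple Massey product on `IA_3`

We use the truncated Magnus expansion of the free group of rank three to construct homomorphisms
on `IA_3` and on its commutator subgroup.
-/

namespace Pool.Agent.Y79.IA3

open BurnLie
open scoped commutatorElement

/-- Elements `1 + a + b + c` of the truncated tensor algebra, `a`, `b`, `c` of degree 1, 2, 3. -/
@[ext] structure U where
  a : Fin 3 → ℤ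
  b : Fin 3 → Fin 3 → ℤ
  c : Fin 3 → Fin 3 → Fin 3 → ℤ

namespace U

instance : Mul U := ⟨fun u v => ⟨fun i => u.a i + v.a i,
  fun i j => u.b i j + v.b i j + u.a i * v.a j,
  fun i j k => u.c i j k + v.c i j k + u.a i * v.b j k + u.b i j * v.a k⟩⟩

instance : One U := ⟨⟨fun _ => 0, fun _ _ => 0, fun _ _ _ => 0⟩⟩

instance : Inv U := ⟨fun u => ⟨fun i => - u.a i, fun i j => - u.b i j + u.a i * u.a j,
  fun i j k => - u.c i j k - u.a i * (- u.b j k + u.a j * u.a k) + u.b i j * u.a k⟩⟩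

theorem mul_a (u v : U) (i) : (u * v).a i = u.a i + v.a i := rfl
theorem mul_b (u v : U) (i j) : (u * v).b i j = u.b i j + v.b i j + u.a i * v.a j := rfl
theorem mul_c (u v : U) (i j k) : (u * v).c i j k =
    u.c i j k + v.c i j k + u.a i * v.b j k + u.b i j * v.a k := rfl
theorem one_a (i) : (1 : U).a i = 0 := rfl
theorem one_b (i j) : (1 : U).b i j = 0 := rfl
theorem one_c (i j k) : (1 : U).c i j k = 0 := rfl
theorem inv_a (u : U) (i) : (u⁻¹).a i = - u.a i := rfl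
theorem inv_b (u : U) (i j) : (u⁻¹).b i j = - u.b i j + u.a i * u.a j := rfl
theorem inv_c (u : U) (i j k) : (u⁻¹).c i j k =
  - u.c i j k - u.a i * (- u.b j k + u.a j * u.a k) + u.b i j * u.a k := rfl

instance : Group U := Group.ofLeftAxioms
  (by
    intro u v w
    ext <;> simp only [mul_a, mul_b, mul_c] <;> ring)
  (by
    intro u
    ext <;> simp only [mul_a, mul_b, mul_c, one_a, one_b, one_c] <;> ring)
  (by
    intro u
    ext <;> simp only [mul_a, mul_b, mul_c, one_a, one_b, one_c, inv_a, inv_b, inv_c] <;> ring)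

/-- The degree one part is a homomorphism. -/
def deg1 : U →* Multiplicative (Fin 3 → ℤ) where
  toFun u := Multiplicative.ofAdd u.a
  map_one' := rfl
  map_mul' _ _ := rfl

end U

/-- The free group of rank three. -/
abbrev F : Type := FreeGroup (Fin 3)

/-- The truncated Magnus expansion. -/
def mu : F →* U := FreeGroup.lift fun i => ⟨Pi.single i 1, fun _ _ => 0, fun _ _ _ => 0⟩

theorem mu_of (i : Fin 3) : mu (FreeGroup.of i) =
    ⟨Pi.single i 1, fun _ _ => 0, fun _ _ _ => 0⟩ := FreeGroup.lift_apply_of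

/-- The shuffle relation in degree two. -/
theorem shuffle (w : F) (j k : Fin 3) : (mu w).b j k + (mu w).b k j =
    (mu w).a j * (mu w).a k - if j = k then (mu w).a j else 0 := by
  induction w using FreeGroup.induction_on with
  | C1 => simp [U.one_a, U.one_b]
  | of i =>
    rw [mu_of]
    by_cases h : j = k
    · subst h
      by_cases h' : j = i
      · subst h'; simp
      · simp [h']
    · by_cases h' : j = i
      · subst h'
        have : k ≠ j := fun e => h e.symm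
        simp [h, this]
      · simp [h, h']
  | inv_of i hi =>
    rw [map_inv, U.inv_b, U.inv_b, U.inv_a, U.inv_a]
    by_cases h : j = k
    · subst h
      simp only [if_true] at hi ⊢
      linear_combination -hi
    · simp only [if_neg h] at hi ⊢
      linear_combination -hi
  | mul x y hx hy =>
    rw [map_mul, U.mul_b, U.mul_b, U.mul_a, U.mul_a]
    by_cases h : j = k
    · subst h
      simp only [if_true] at hx hy ⊢
      linear_combination hx + hy
    · simp only [if_neg h] at hx hy ⊢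
      linear_combination hx + hy

/-- The automorphisms of the free group of rank `n` which act trivially on its abelianization. -/
def IA (n : ℕ) : Subgroup (MulAut (FreeGroup (Fin n))) where
  carrier := {f | ∀ x, Abelianization.of (f x) = Abelianization.of x}
  mul_mem' := by
    intro f g hf hg x
    rw [MulAut.mul_apply, hf, hg]
  one_mem' := fun _ => rfl
  inv_mem' := by
    intro f hf x
    rw [← hf (f⁻¹ x), MulAut.apply_inv_self]

theorem mem_IA {n : ℕ} (f : MulAut (FreeGroup (Fin n))) :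
    f ∈ IA n ↔ ∀ x, Abelianization.of (f x) = Abelianization.of x := Iff.rfl

/-- the degree two coefficients of `g (x_i)` -/
def A (g : IA 3) (i j k : Fin 3) : ℤ := (mu (g.1 (FreeGroup.of i))).b j k

/-- the degree three coefficients of `g (x_i)` -/
def S (g : IA 3) (i j k l : Fin 3) : ℤ := (mu (g.1 (FreeGroup.of i))).c j k l

theorem mu_a (g : IA 3) (w : F) : (mu (g.1 w)).a = (mu w).a := by
  have h : ∀ x : F, (Abelianization.lift (U.deg1.comp mu)) (Abelianization.of x) =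
      U.deg1 (mu x) := fun x => by
    rw [Abelianization.lift_apply_of]; rfl
  have h1 := h (g.1 w)
  rw [g.2 w, h w] at h1
  exact h1.symm

theorem A_symm (g : IA 3) (i j k : Fin 3) : A g i j k + A g i k j = 0 := by
  have h := shuffle (g.1 (FreeGroup.of i)) j k
  rw [mu_a, mu_of] at h
  unfold A
  rw [h]
  by_cases hjk : j = k
  · subst hjk
    by_cases hi : j = i
    · subst hi; simp
    · simp [hi]
  · by_cases hi : j = i
    · subst hi
      have : k ≠ j := fun e => hjk e.symm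
      simp [this, hjk]
    · simp [hi, hjk]

/-- The automorphism of the truncated tensor algebra with given degree two and three parts. -/
def R (α : Fin 3 → Fin 3 → Fin 3 → ℤ) (σ : Fin 3 → Fin 3 → Fin 3 → Fin 3 → ℤ) : U →* U where
  toFun u := ⟨u.a, fun j k => u.b j k + ∑ i, u.a i * α i j k,
    fun j k l => u.c j k l + ∑ i, u.a i * σ i j k l +
      ∑ m, (u.b m l * α m j k + u.b j m * α m k l)⟩
  map_one' := by
    ext <;> simp [U.one_a, U.one_b, U.one_c]
  map_mul' u v := by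
    ext i j k
    · rfl
    · simp only [U.mul_b, U.mul_a, Fin.sum_univ_three]
      ring
    · simp only [U.mul_b, U.mul_a, U.mul_c, Fin.sum_univ_three]
      ring

theorem R_b (α σ) (u : U) (j k) : (R α σ u).b j k = u.b j k + ∑ i, u.a i * α i j k := rfl
theorem R_c (α σ) (u : U) (j k l) : (R α σ u).c j k l = u.c j k l + ∑ i, u.a i * σ i j k l +
      ∑ m, (u.b m l * α m j k + u.b j m * α m k l) := rfl

theorem mu_apply (g : IA 3) (w : F) : mu (g.1 w) = R (A g) (S g) (mu w) := by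
  have h : mu.comp (MulEquiv.toMonoidHom g.1) = (R (A g) (S g)).comp mu := by
    apply FreeGroup.ext_hom
    intro i
    show mu (g.1 (FreeGroup.of i)) = R (A g) (S g) (mu (FreeGroup.of i))
    rw [mu_of]
    apply U.ext
    · rw [mu_a, mu_of]; rfl
    · funext j k
      rw [R_b]
      simp [A, Pi.single_apply]
    · funext j k l
      rw [R_c]
      simp [S, Pi.single_apply]
  exact DFunLike.congr_fun h w

theorem A_mul (g h : IA 3) (i j k : Fin 3) : A (g * h) i j k = A g i j k + A h i j k := by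
  have e : (g * h).1 (FreeGroup.of i) = g.1 (h.1 (FreeGroup.of i)) := rfl
  unfold A
  rw [e, mu_apply, R_b, mu_a, mu_of]
  simp [A, Pi.single_apply]
  ring

theorem S_mul (g h : IA 3) (i j k l : Fin 3) : S (g * h) i j k l = S g i j k l + S h i j k l +
    ∑ m, (A h i m l * A g m j k + A h i j m * A g m k l) := by
  have e : (g * h).1 (FreeGroup.of i) = g.1 (h.1 (FreeGroup.of i)) := rfl
  unfold S
  rw [e, mu_apply, R_c, mu_a, mu_of]
  simp [S, A, Pi.single_apply]
  ring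

theorem A_one (i j k : Fin 3) : A 1 i j k = 0 := by
  have := A_mul 1 1 i j k
  rw [mul_one] at this
  linarith

theorem A_comm (g h : IA 3) (i j k : Fin 3) : A ⁅g, h⁆ i j k = 0 := by
  have e : ⁅g, h⁆ * (h * g) = g * h := by rw [commutatorElement_def]; group
  have h1 := congrArg (fun x => A x i j k) e
  simp only [A_mul] at h1
  linarith

theorem S_comm (g h : IA 3) (i j k l : Fin 3) : S ⁅g, h⁆ i j k l =
    ∑ m, (A h i m l * A g m j k + A h i j m * A g m k l) -
    ∑ m, (A g i m l * A h m j k + A g i j m * A h m k l) := by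
  have e : ⁅g, h⁆ * (h * g) = g * h := by rw [commutatorElement_def]; group
  have h1 := congrArg (fun x => S x i j k l) e
  simp only [S_mul, A_comm] at h1
  simp only [mul_zero, add_zero, Finset.sum_const_zero] at h1
  linarith

/-- the three characters -/
def tt (g : IA 3) : ℤ := A g 0 2 1
def PP (g : IA 3) : ℤ := A g 2 1 2 - A g 0 1 0
def QQ (g : IA 3) : ℤ := A g 1 2 1 - A g 0 2 0
/-- the two functions of degree two -/
def f2 (g : IA 3) : ℤ := - S g 0 1 1 2
def om (g : IA 3) : ℤ := S g 2 2 2 1 - S g 0 1 2 0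

theorem A_diag (g : IA 3) (i j : Fin 3) : A g i j j = 0 := by
  have := A_symm g i j j
  omega

theorem A_swap (g : IA 3) (i j k : Fin 3) : A g i j k = - A g i k j := by
  have := A_symm g i j k
  omega

theorem f2_comm (g h : IA 3) : f2 ⁅g, h⁆ = tt h * PP g - tt g * PP h := by
  unfold f2 tt PP
  rw [S_comm]
  simp only [Fin.sum_univ_three, A_diag]
  rw [A_swap g 0 1 2, A_swap h 0 1 2]
  ring

theorem om_comm (g h : IA 3) : om ⁅g, h⁆ = PP g * QQ h - PP h * QQ g := by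
  unfold om PP QQ
  rw [S_comm, S_comm]
  simp only [Fin.sum_univ_three, A_diag]
  rw [A_swap g 0 1 2, A_swap h 0 1 2, A_swap g 2 2 1, A_swap h 2 2 1, A_swap g 1 1 2,
    A_swap h 1 1 2]
  ring

/-! ### Three elements of `IA_3` -/

/-- the automorphism of the free group with given values on generators and given inverse -/
def mkAut (f g : Fin 3 → F) (h1 : ∀ i, FreeGroup.lift f (g i) = FreeGroup.of i)
    (h2 : ∀ i, FreeGroup.lift g (f i) = FreeGroup.of i) : MulAut F where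
  toFun := FreeGroup.lift f
  invFun := FreeGroup.lift g
  left_inv := fun x => by
    have : (FreeGroup.lift g).comp (FreeGroup.lift f) = MonoidHom.id F := by
      apply FreeGroup.ext_hom
      intro i
      simp [h2]
    exact DFunLike.congr_fun this x
  right_inv := fun x => by
    have : (FreeGroup.lift f).comp (FreeGroup.lift g) = MonoidHom.id F := by
      apply FreeGroup.ext_hom
      intro i
      simp [h1]
    exact DFunLike.congr_fun this x
  map_mul' := map_mul _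

theorem mkAut_of (f g h1 h2) (i : Fin 3) : mkAut f g h1 h2 (FreeGroup.of i) = f i :=
  FreeGroup.lift_apply_of

theorem mkAut_inv_of (f g h1 h2) (i : Fin 3) : (mkAut f g h1 h2)⁻¹ (FreeGroup.of i) = g i :=
  FreeGroup.lift_apply_of

theorem mkAut_mem (f g h1 h2) (h : ∀ i, Abelianization.of (f i) =
    Abelianization.of (FreeGroup.of i)) : mkAut f g h1 h2 ∈ IA 3 := by
  intro x
  have : Abelianization.of.comp (MulEquiv.toMonoidHom (mkAut f g h1 h2)) =
      (Abelianization.of : F →* Abelianization F) := by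
    apply FreeGroup.ext_hom
    intro i
    show Abelianization.of (mkAut f g h1 h2 (FreeGroup.of i)) = _
    rw [mkAut_of, h]
  exact DFunLike.congr_fun this x

abbrev x0 : F := FreeGroup.of 0
abbrev x1 : F := FreeGroup.of 1
abbrev x2 : F := FreeGroup.of 2

/-- the commutator `x₂⁻¹ x₁⁻¹ x₂ x₁` -/
def ww : F := x2⁻¹ * x1⁻¹ * x2 * x1

theorem lift_ww (f : Fin 3 → F) (h1 : f 1 = x1) (h2 : f 2 = x2) : FreeGroup.lift f ww = ww := by
  simp [ww, h1, h2]

theorem T0_h1 (i : Fin 3) : FreeGroup.lift (![x0 * ww, x1, x2] : Fin 3 → F)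
    ((![x0 * ww⁻¹, x1, x2] : Fin 3 → F) i) = FreeGroup.of i := by
  fin_cases i
  · show FreeGroup.lift (![x0 * ww, x1, x2] : Fin 3 → F) (x0 * ww⁻¹) = x0
    rw [map_mul, map_inv, lift_ww (![x0 * ww, x1, x2] : Fin 3 → F) rfl rfl, FreeGroup.lift_apply_of]
    show x0 * ww * ww⁻¹ = x0
    group
  · simp
  · simp

theorem T0_h2 (i : Fin 3) : FreeGroup.lift (![x0 * ww⁻¹, x1, x2] : Fin 3 → F)
    ((![x0 * ww, x1, x2] : Fin 3 → F) i) = FreeGroup.of i := by
  fin_cases i
  · show FreeGroup.lift (![x0 * ww⁻¹, x1, x2] : Fin 3 → F) (x0 * ww) = x0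
    rw [map_mul, lift_ww (![x0 * ww⁻¹, x1, x2] : Fin 3 → F) rfl rfl, FreeGroup.lift_apply_of]
    show x0 * ww⁻¹ * ww = x0
    group
  · simp
  · simp

/-- `x₀ ↦ x₀ w` -/
def T0 : MulAut F := mkAut ![x0 * ww, x1, x2] ![x0 * ww⁻¹, x1, x2] T0_h1 T0_h2

theorem C1_h1 (i : Fin 3) : FreeGroup.lift (![x1 * x0 * x1⁻¹, x1, x2] : Fin 3 → F)
    ((![x1⁻¹ * x0 * x1, x1, x2] : Fin 3 → F) i) = FreeGroup.of i := by
  fin_cases i <;> simp [mul_assoc]

theorem C1_h2 (i : Fin 3) : FreeGroup.lift (![x1⁻¹ * x0 * x1, x1, x2] : Fin 3 → F)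
    ((![x1 * x0 * x1⁻¹, x1, x2] : Fin 3 → F) i) = FreeGroup.of i := by
  fin_cases i <;> simp [mul_assoc]

/-- `x₀ ↦ x₁ x₀ x₁⁻¹` -/
def C1 : MulAut F := mkAut ![x1 * x0 * x1⁻¹, x1, x2] ![x1⁻¹ * x0 * x1, x1, x2] C1_h1 C1_h2

theorem C2_h1 (i : Fin 3) : FreeGroup.lift (![x2 * x0 * x2⁻¹, x1, x2] : Fin 3 → F)
    ((![x2⁻¹ * x0 * x2, x1, x2] : Fin 3 → F) i) = FreeGroup.of i := by
  fin_cases i <;> simp [mul_assoc]

theorem C2_h2 (i : Fin 3) : FreeGroup.lift (![x2⁻¹ * x0 * x2, x1, x2] : Fin 3 → F)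
    ((![x2 * x0 * x2⁻¹, x1, x2] : Fin 3 → F) i) = FreeGroup.of i := by
  fin_cases i <;> simp [mul_assoc]

/-- `x₀ ↦ x₂ x₀ x₂⁻¹` -/
def C2 : MulAut F := mkAut ![x2 * x0 * x2⁻¹, x1, x2] ![x2⁻¹ * x0 * x2, x1, x2] C2_h1 C2_h2

theorem T0_mem : T0 ∈ IA 3 := mkAut_mem _ _ _ _ (by
  intro i
  fin_cases i
  · simp only [ww]
    simp
  · rfl
  · rfl)

theorem C1_mem : C1 ∈ IA 3 := mkAut_mem _ _ _ _ (by
  intro i
  fin_cases i
  · simp
  · rfl
  · rfl)

theorem C2_mem : C2 ∈ IA 3 := mkAut_mem _ _ _ _ (by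
  intro i
  fin_cases i
  · simp
  · rfl
  · rfl)

theorem comm_C : ∀ i, ⁅C1, C2⁆ (FreeGroup.of i) = (![ww * x0 * ww⁻¹, x1, x2] : Fin 3 → F) i := by
  intro i
  have a0 : C1 x0 = x1 * x0 * x1⁻¹ := mkAut_of _ _ C1_h1 C1_h2 0
  have a1 : C1 x1 = x1 := mkAut_of _ _ C1_h1 C1_h2 1
  have a2 : C1 x2 = x2 := mkAut_of _ _ C1_h1 C1_h2 2
  have b0 : C2 x0 = x2 * x0 * x2⁻¹ := mkAut_of _ _ C2_h1 C2_h2 0
  have b1 : C2 x1 = x1 := mkAut_of _ _ C2_h1 C2_h2 1
  have b2 : C2 x2 = x2 := mkAut_of _ _ C2_h1 C2_h2 2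
  have a0' : C1⁻¹ x0 = x1⁻¹ * x0 * x1 := mkAut_inv_of _ _ C1_h1 C1_h2 0
  have a1' : C1⁻¹ x1 = x1 := mkAut_inv_of _ _ C1_h1 C1_h2 1
  have a2' : C1⁻¹ x2 = x2 := mkAut_inv_of _ _ C1_h1 C1_h2 2
  have b0' : C2⁻¹ x0 = x2⁻¹ * x0 * x2 := mkAut_inv_of _ _ C2_h1 C2_h2 0
  have b1' : C2⁻¹ x1 = x1 := mkAut_inv_of _ _ C2_h1 C2_h2 1
  have b2' : C2⁻¹ x2 = x2 := mkAut_inv_of _ _ C2_h1 C2_h2 2
  rw [commutatorElement_def, MulAut.mul_apply, MulAut.mul_apply, MulAut.mul_apply]
  fin_cases i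
  · show C1 (C2 (C1⁻¹ (C2⁻¹ x0))) = ww * x0 * ww⁻¹
    simp only [a0, a1, a2, b0, b1, b2, a0', a2', b0', map_mul, map_inv, ww]
    group
  · show C1 (C2 (C1⁻¹ (C2⁻¹ x1))) = x1
    rw [b1', a1', b1, a1]
  · show C1 (C2 (C1⁻¹ (C2⁻¹ x2))) = x2
    rw [b2', a2', b2, a2]

/-- The cubic relation. -/
theorem cubic : ⁅T0, ⁅C1, C2⁆⁆ = 1 := by
  rw [commutatorElement_eq_one_iff_mul_comm]
  have t0 : T0 x0 = x0 * ww := mkAut_of _ _ T0_h1 T0_h2 0
  have t1 : T0 x1 = x1 := mkAut_of _ _ T0_h1 T0_h2 1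
  have t2 : T0 x2 = x2 := mkAut_of _ _ T0_h1 T0_h2 2
  have c0 : ⁅C1, C2⁆ x0 = ww * x0 * ww⁻¹ := comm_C 0
  have c1 : ⁅C1, C2⁆ x1 = x1 := comm_C 1
  have c2 : ⁅C1, C2⁆ x2 = x2 := comm_C 2
  have tw : T0 ww = ww := by simp only [ww, map_mul, map_inv, t1, t2]
  have cw : ⁅C1, C2⁆ ww = ww := by simp only [ww, map_mul, map_inv, c1, c2]
  have h : (MulEquiv.toMonoidHom (T0 * ⁅C1, C2⁆)) = MulEquiv.toMonoidHom (⁅C1, C2⁆ * T0) := by
    apply FreeGroup.ext_hom
    intro i
    show T0 (⁅C1, C2⁆ (FreeGroup.of i)) = ⁅C1, C2⁆ (T0 (FreeGroup.of i))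
    fin_cases i
    · show T0 (⁅C1, C2⁆ x0) = ⁅C1, C2⁆ (T0 x0)
      rw [t0, c0]
      simp only [map_mul, map_inv, t0, c0, tw, cw]
      group
    · show T0 (⁅C1, C2⁆ x1) = ⁅C1, C2⁆ (T0 x1)
      rw [t1, c1, t1]
    · show T0 (⁅C1, C2⁆ x2) = ⁅C1, C2⁆ (T0 x2)
      rw [t2, c2, t2]
  apply MulEquiv.ext
  intro x
  exact DFunLike.congr_fun h x

def T0' : IA 3 := ⟨T0, T0_mem⟩
def C1' : IA 3 := ⟨C1, C1_mem⟩
def C2' : IA 3 := ⟨C2, C2_mem⟩

theorem cubic' : ⁅T0', ⁅C1', C2'⁆⁆ = 1 := Subtype.ext cubic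

theorem A_T (i j k : Fin 3) : A T0' i j k = (mu ((![x0 * ww, x1, x2] : Fin 3 → F) i)).b j k := by
  unfold A
  rw [show T0'.1 (FreeGroup.of i) = (![x0 * ww, x1, x2] : Fin 3 → F) i from
    mkAut_of _ _ T0_h1 T0_h2 i]

theorem A_C1 (i j k : Fin 3) :
    A C1' i j k = (mu ((![x1 * x0 * x1⁻¹, x1, x2] : Fin 3 → F) i)).b j k := by
  unfold A
  rw [show C1'.1 (FreeGroup.of i) = (![x1 * x0 * x1⁻¹, x1, x2] : Fin 3 → F) i from
    mkAut_of _ _ C1_h1 C1_h2 i]

theorem A_C2 (i j k : Fin 3) :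
    A C2' i j k = (mu ((![x2 * x0 * x2⁻¹, x1, x2] : Fin 3 → F) i)).b j k := by
  unfold A
  rw [show C2'.1 (FreeGroup.of i) = (![x2 * x0 * x2⁻¹, x1, x2] : Fin 3 → F) i from
    mkAut_of _ _ C2_h1 C2_h2 i]

theorem val_T : tt T0' = 1 ∧ PP T0' = 0 ∧ QQ T0' = 0 := by
  unfold tt PP QQ
  simp only [A_T]
  simp [ww, mu_of, U.mul_b, U.mul_a, U.inv_a, U.inv_b]

theorem val_C1 : tt C1' = 0 ∧ PP C1' = -1 ∧ QQ C1' = 0 := by
  unfold tt PP QQ
  simp only [A_C1]
  simp [mu_of, U.mul_b, U.mul_a, U.inv_a, U.inv_b]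

theorem val_C2 : tt C2' = 0 ∧ PP C2' = 0 ∧ QQ C2' = -1 := by
  unfold tt PP QQ
  simp only [A_C2]
  simp [mu_of, U.mul_b, U.mul_a, U.inv_a, U.inv_b]

/-! ### The graded pieces -/

section graded

variable {G : Type} [Group G]

/-- An additive map on the component of index `n` from a homomorphism on `γ_{n+1}`. -/
def grLift {M : Type} [AddCommGroup M] (n : ℕ) (φ : lcs G n →* Multiplicative M)
    (h : ∀ g : lcs G n, (g : G) ∈ lcs G (n + 1) → φ g = 1) : Grd G n →+ M :=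
  MonoidHom.toAdditiveLeft (QuotientGroup.lift ((lcs G (n + 1)).subgroupOf (lcs G n)) φ
    (fun g hg => h g hg))

theorem grLift_mk {M : Type} [AddCommGroup M] (n : ℕ) (φ : lcs G n →* Multiplicative M)
    (h : ∀ g : lcs G n, (g : G) ∈ lcs G (n + 1) → φ g = 1) (g : lcs G n) :
    grLift n φ h (grMk n g) = (φ g).toAdd := rfl

/-- The projection to the component of index `n`. -/
def pr (n : ℕ) : AssocLie G →+ Grd G n :=
  (DFinsupp.evalAddMonoidHom n : (Π₀ i, Grd G i) →+ Grd G n)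

theorem pr_same (n : ℕ) (x : Grd G n) : pr n (ofL n x) = x :=
  DirectSum.of_eq_same (β := Grd G) n x

theorem pr_ne {m n : ℕ} (h : m ≠ n) (x : Grd G m) : pr n (ofL m x) = 0 :=
  DirectSum.of_eq_of_ne (β := Grd G) m n x h.symm

theorem pr_zero_lie (x y : AssocLie G) : pr 0 ⁅x, y⁆ = 0 := by
  show pr 0 (lieHom x y) = 0
  induction x using BurnLie.ind with
  | h0 => rw [map_zero, AddMonoidHom.zero_apply, map_zero]
  | h1 m g =>
    induction y using BurnLie.ind with
    | h0 => rw [map_zero, map_zero]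
    | h1 n h =>
      rw [lieHom_mkL]
      exact pr_ne (by omega) _
    | h2 a b ha hb => rw [map_add, map_add, ha, hb, add_zero]
  | h2 a b ha hb => rw [lieHom_add_left, map_add, ha, hb, add_zero]

theorem lie_ofL (x y : Grd G 0) : (⁅(ofL 0 x : AssocLie G), ofL 0 y⁆ : AssocLie G) =
    ofL 1 (grBr 0 0 x y) := lieHom_of 0 0 x y

end graded

/-- `A` vanishes on the commutator subgroup. -/
theorem A_lcs (g : IA 3) (hg : g ∈ lcs (IA 3) 1) (i j k : Fin 3) : A g i j k = 0 := by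
  let K : Subgroup (IA 3) :=
    { carrier := {g | A g i j k = 0}
      mul_mem' := by
        intro a b ha hb
        show A (a * b) i j k = 0
        rw [A_mul, show A a i j k = 0 from ha, show A b i j k = 0 from hb, add_zero]
      one_mem' := A_one i j k
      inv_mem' := by
        intro a ha
        have h := A_mul a a⁻¹ i j k
        rw [mul_inv_cancel, A_one, show A a i j k = 0 from ha, zero_add] at h
        exact h.symm }
  have h1 : lcs (IA 3) 1 ≤ K := by
    rw [lcs, Subgroup.lowerCentralSeries_succ, Subgroup.commutator_le]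
    intro a _ b _
    exact A_comm a b i j k
  exact h1 hg

theorem S_add (g h : IA 3) (hg : ∀ i j k, A g i j k = 0) (i j k l : Fin 3) :
    S (g * h) i j k l = S g i j k l + S h i j k l := by
  rw [S_mul]
  simp [hg]

theorem f2_add (g h : IA 3) (hg : ∀ i j k, A g i j k = 0) : f2 (g * h) = f2 g + f2 h := by
  unfold f2
  rw [S_add g h hg]
  ring

theorem om_add (g h : IA 3) (hg : ∀ i j k, A g i j k = 0) : om (g * h) = om g + om h := by
  unfold om
  rw [S_add g h hg, S_add g h hg]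
  ring

theorem f2_one : f2 1 = 0 := by
  have := f2_add 1 1 A_one
  rw [mul_one] at this
  linarith

theorem om_one : om 1 = 0 := by
  have := om_add 1 1 A_one
  rw [mul_one] at this
  linarith

theorem deg2_lcs (g : IA 3) (hg : g ∈ lcs (IA 3) 2) : f2 g = 0 ∧ om g = 0 := by
  let K : Subgroup (IA 3) :=
    { carrier := {g | (∀ i j k, A g i j k = 0) ∧ f2 g = 0 ∧ om g = 0}
      mul_mem' := by
        rintro a b ⟨ha, ha1, ha2⟩ ⟨hb, hb1, hb2⟩
        refine ⟨fun i j k => ?_, ?_, ?_⟩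
        · rw [A_mul, ha, hb, add_zero]
        · rw [f2_add a b ha, ha1, hb1, add_zero]
        · rw [om_add a b ha, ha2, hb2, add_zero]
      one_mem' := ⟨A_one, f2_one, om_one⟩
      inv_mem' := by
        rintro a ⟨ha, ha1, ha2⟩
        refine ⟨fun i j k => ?_, ?_, ?_⟩
        · have h := A_mul a a⁻¹ i j k
          rw [mul_inv_cancel, A_one, ha, zero_add] at h
          exact h.symm
        · have h := f2_add a a⁻¹ ha
          rw [mul_inv_cancel, f2_one, ha1, zero_add] at h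
          exact h.symm
        · have h := om_add a a⁻¹ ha
          rw [mul_inv_cancel, om_one, ha2, zero_add] at h
          exact h.symm }
  have h1 : lcs (IA 3) 2 ≤ K := by
    rw [lcs, Subgroup.lowerCentralSeries_succ, Subgroup.commutator_le]
    intro a ha b _
    have hA := A_lcs a ha
    refine ⟨A_comm a b, ?_, ?_⟩
    · rw [f2_comm]
      simp [tt, PP, hA]
    · rw [om_comm]
      simp [PP, QQ, hA]
  exact (h1 hg).2

/-- the matrix Lie ring -/
abbrev MM : Type := Matrix (Fin 4) (Fin 4) ℤ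

/-- The degree one part of the map to matrices. -/
def chi : Grd (IA 3) 0 →+ MM :=
  grLift 0 (M := MM)
    { toFun := fun g => Multiplicative.ofAdd (tt g.1 • Matrix.single 0 1 (1 : ℤ) +
        PP g.1 • Matrix.single 1 2 (1 : ℤ) + QQ g.1 • Matrix.single 2 3 (1 : ℤ) : MM)
      map_one' := by
        apply congrArg Multiplicative.ofAdd
        simp [tt, PP, QQ, A_one]
      map_mul' := by
        intro a b
        rw [← ofAdd_add]
        apply congrArg Multiplicative.ofAdd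
        simp only [tt, PP, QQ, Subgroup.coe_mul, A_mul]
        module }
    (by
      intro g hg
      apply congrArg Multiplicative.ofAdd
      simp [tt, PP, QQ, A_lcs g.1 hg])

theorem chi_mk (g : lcs (IA 3) 0) : chi (grMk 0 g) = (tt g.1 • Matrix.single 0 1 (1 : ℤ) +
        PP g.1 • Matrix.single 1 2 (1 : ℤ) + QQ g.1 • Matrix.single 2 3 (1 : ℤ) : MM) := rfl

/-- The degree two part of the map to matrices. -/
def xi : Grd (IA 3) 1 →+ MM :=
  grLift 1 (M := MM)
    { toFun := fun g => Multiplicative.ofAdd (- f2 g.1 • Matrix.single 0 2 (1 : ℤ) +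
        om g.1 • Matrix.single 1 3 (1 : ℤ) : MM)
      map_one' := by
        apply congrArg Multiplicative.ofAdd
        simp [f2_one, om_one]
      map_mul' := by
        intro a b
        rw [← ofAdd_add]
        apply congrArg Multiplicative.ofAdd
        rw [Subgroup.coe_mul, f2_add _ _ (A_lcs a.1 a.2), om_add _ _ (A_lcs a.1 a.2)]
        module }
    (by
      intro g hg
      apply congrArg Multiplicative.ofAdd
      obtain ⟨h1, h2⟩ := deg2_lcs g.1 hg
      simp [h1, h2])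

theorem xi_mk (g : lcs (IA 3) 1) : xi (grMk 1 g) = (- f2 g.1 • Matrix.single 0 2 (1 : ℤ) +
        om g.1 • Matrix.single 1 3 (1 : ℤ) : MM) := rfl

theorem xi_br (v w : Grd (IA 3) 0) : xi (grBr 0 0 v w) = ⁅chi v, chi w⁆ := by
  obtain ⟨g, rfl⟩ := grMk_surj 0 v
  obtain ⟨h, rfl⟩ := grMk_surj 0 w
  rw [grBr_mk]
  have e : xi (grMk (0 + 0 + 1) (brElt 0 0 g h)) =
      (- f2 ⁅g.1, h.1⁆ • Matrix.single 0 2 (1 : ℤ) +
        om ⁅g.1, h.1⁆ • Matrix.single 1 3 (1 : ℤ) : MM) := xi_mk (brElt 0 0 g h)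
  rw [e, chi_mk, chi_mk, f2_comm, om_comm, Ring.lie_def]
  ext i j
  fin_cases i <;> fin_cases j <;>
    simp [Matrix.mul_apply, Matrix.single_apply]

/-! ### The main argument -/

attribute [local instance 100] LieRing.ofAssociativeRing

theorem free_ind {X : Type} {p : FreeLieAlgebra ℤ X → Prop}
    (hof : ∀ x, p (FreeLieAlgebra.of ℤ x)) (hzero : p 0) (hadd : ∀ x y, p x → p y → p (x + y))
    (hsmul : ∀ (n : ℤ) x, p x → p (n • x)) (hlie : ∀ x y, p x → p y → p ⁅x, y⁆)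
    (z : FreeLieAlgebra ℤ X) : p z := by
  let K : LieSubalgebra ℤ (FreeLieAlgebra ℤ X) :=
    { carrier := {z | p z}
      add_mem' := fun {x y} hx hy => hadd x y hx hy
      zero_mem' := hzero
      smul_mem' := fun n x hx => hsmul n x hx
      lie_mem' := fun {x y} hx hy => hlie x y hx hy }
  let ι : FreeLieAlgebra ℤ X →ₗ⁅ℤ⁆ K := FreeLieAlgebra.lift ℤ fun x => ⟨FreeLieAlgebra.of ℤ x, hof x⟩
  have h : K.incl.comp ι = LieHom.id := by
    apply FreeLieAlgebra.hom_ext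
    intro x
    show ((ι (FreeLieAlgebra.of ℤ x) : K) : FreeLieAlgebra ℤ X) = FreeLieAlgebra.of ℤ x
    have h3 : ι (FreeLieAlgebra.of ℤ x) = ⟨FreeLieAlgebra.of ℤ x, hof x⟩ :=
      FreeLieAlgebra.lift_of_apply _ x
    rw [h3]
  have h2 : ((ι z : K) : FreeLieAlgebra ℤ X) = z := LieHom.congr_fun h z
  rw [← h2]
  exact (ι z).2

/-- The class of an element of `IA_3` in degree one. -/
def cl (g : IA 3) : Grd (IA 3) 0 := grMk 0 ⟨g, Subgroup.mem_top g⟩

theorem cubic_lie : (⁅(ofL 0 (cl T0') : AssocLie (IA 3)), ⁅(ofL 0 (cl C1') : AssocLie (IA 3)),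
    (ofL 0 (cl C2') : AssocLie (IA 3))⁆⁆ : AssocLie (IA 3)) = 0 := by
  show lieHom (mkL 0 _) (lieHom (mkL 0 _) (mkL 0 _)) = 0
  rw [lieHom_mkL, lieHom_mkL, ← mkL_one (0 + (0 + 0 + 1) + 1)]
  exact mkL_congr rfl cubic'

theorem chi_T : chi (cl T0') = Matrix.single 0 1 (1 : ℤ) := by
  obtain ⟨h1, h2, h3⟩ := val_T
  unfold cl
  rw [chi_mk, h1, h2, h3]
  simp

theorem chi_C1 : chi (cl C1') = - Matrix.single 1 2 (1 : ℤ) := by
  obtain ⟨h1, h2, h3⟩ := val_C1
  unfold cl
  rw [chi_mk, h1, h2, h3]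
  simp

theorem chi_C2 : chi (cl C2') = - Matrix.single 2 3 (1 : ℤ) := by
  obtain ⟨h1, h2, h3⟩ := val_C2
  unfold cl
  rw [chi_mk, h1, h2, h3]
  simp

section

variable (Φ : FreeLieAlgebra ℤ (Grd (IA 3) 0) →ₗ⁅ℤ⁆ AssocLie (IA 3))
  (α : Grd (IA 3) 0 → Grd (IA 3) 0)
  (hα : ∀ v, Φ (FreeLieAlgebra.of ℤ v) = ofL 0 (α v))
  (S : Set (FreeLieAlgebra ℤ (Grd (IA 3) 0)))
  (hker : ∀ z, Φ z = 0 ↔ z ∈ LieSubmodule.lieSpan ℤ (FreeLieAlgebra ℤ (Grd (IA 3) 0))
      ({x | ∃ v w, x = FreeLieAlgebra.of ℤ (v + w) - FreeLieAlgebra.of ℤ v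
        - FreeLieAlgebra.of ℤ w} ∪ S))

include hα hker

theorem alpha_add (v w) : α (v + w) = α v + α w := by
  have h : Φ (FreeLieAlgebra.of ℤ (v + w) - FreeLieAlgebra.of ℤ v - FreeLieAlgebra.of ℤ w) = 0 := by
    rw [hker]
    exact LieSubmodule.subset_lieSpan (Or.inl ⟨v, w, rfl⟩)
  rw [map_sub, map_sub, hα, hα, hα] at h
  have h2 := congrArg (pr 0) h
  rw [map_sub, map_sub, pr_same, pr_same, pr_same, map_zero] at h2
  rw [sub_sub, sub_eq_zero] at h2
  exact h2

theorem alpha_surj (hsurj : Function.Surjective Φ) : ∀ u, ∃ v, α v = u := by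
  have hαadd := alpha_add Φ α hα S hker
  have hαzero : α 0 = 0 := by
    have := hαadd 0 0
    rw [add_zero] at this
    exact left_eq_add.1 this
  have hαsmul : ∀ (n : ℤ) v, α (n • v) = n • α v := by
    intro n v
    exact map_zsmul (AddMonoidHom.mk' α hαadd) n v
  have key : ∀ z, ∃ v, α v = pr 0 (Φ z) := by
    intro z
    induction z using free_ind with
    | hof x => exact ⟨x, by rw [hα, pr_same]⟩
    | hzero => exact ⟨0, by rw [hαzero, map_zero, map_zero]⟩
    | hadd x y hx hy =>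
      obtain ⟨v, hv⟩ := hx
      obtain ⟨w, hw⟩ := hy
      exact ⟨v + w, by rw [hαadd, hv, hw, map_add, map_add]⟩
    | hsmul n x hx =>
      obtain ⟨v, hv⟩ := hx
      exact ⟨n • v, by rw [hαsmul, hv, map_zsmul, map_zsmul]⟩
    | hlie x y _ _ =>
      exact ⟨0, by rw [hαzero, LieHom.map_lie, pr_zero_lie]⟩
  intro u
  obtain ⟨z, hz⟩ := hsurj (ofL 0 u)
  obtain ⟨v, hv⟩ := key z
  exact ⟨v, by rw [hv, hz, pr_same]⟩

theorem main
    (hS : ∀ s ∈ S, s ∈ AddSubgroup.closure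
      {x : FreeLieAlgebra ℤ (Grd (IA 3) 0) | ∃ v w : Grd (IA 3) 0,
        x = ⁅FreeLieAlgebra.of ℤ v, FreeLieAlgebra.of ℤ w⁆})
    (hαsurj : ∀ u, ∃ v, α v = u) : False := by
  have hαadd := alpha_add Φ α hα S hker
  -- the map to matrices
  let Ψ : FreeLieAlgebra ℤ (Grd (IA 3) 0) →ₗ⁅ℤ⁆ MM := FreeLieAlgebra.lift ℤ fun v => chi (α v)
  have hΨ : ∀ v, Ψ (FreeLieAlgebra.of ℤ v) = chi (α v) := fun v =>
    FreeLieAlgebra.lift_of_apply _ v
  have hΨ2 : ∀ s ∈ AddSubgroup.closure {x : FreeLieAlgebra ℤ (Grd (IA 3) 0) |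
      ∃ v w : Grd (IA 3) 0, x = ⁅FreeLieAlgebra.of ℤ v, FreeLieAlgebra.of ℤ w⁆},
      Ψ s = xi (pr 1 (Φ s)) := by
    intro s hs
    induction hs using AddSubgroup.closure_induction with
    | mem x hx =>
      obtain ⟨v, w, rfl⟩ := hx
      rw [LieHom.map_lie, LieHom.map_lie, hΨ, hΨ, hα, hα, lie_ofL, pr_same, xi_br]
    | zero => rw [map_zero, map_zero, map_zero, map_zero]
    | add x y _ _ hx hy => rw [map_add, map_add, map_add, map_add, hx, hy]
    | neg x _ hx => rw [map_neg, map_neg, map_neg, map_neg, hx]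
  have hle : LieSubmodule.lieSpan ℤ (FreeLieAlgebra ℤ (Grd (IA 3) 0))
      ({x | ∃ v w, x = FreeLieAlgebra.of ℤ (v + w) - FreeLieAlgebra.of ℤ v
        - FreeLieAlgebra.of ℤ w} ∪ S) ≤ Ψ.ker := by
    rw [LieSubmodule.lieSpan_le]
    rintro x (⟨v, w, rfl⟩ | hx)
    · show _ ∈ Ψ.ker
      rw [LieHom.mem_ker, map_sub, map_sub, hΨ, hΨ, hΨ, hαadd, map_add]
      abel
    · show _ ∈ Ψ.ker
      rw [LieHom.mem_ker, hΨ2 x (hS x hx)]
      have h0 : Φ x = 0 := (hker x).2 (LieSubmodule.subset_lieSpan (Or.inr hx))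
      rw [h0, map_zero, map_zero]
  obtain ⟨v1, h1⟩ := hαsurj (cl T0')
  obtain ⟨v2, h2⟩ := hαsurj (cl C1')
  obtain ⟨v3, h3⟩ := hαsurj (cl C2')
  have hz : Φ ⁅FreeLieAlgebra.of ℤ v1, ⁅FreeLieAlgebra.of ℤ v2, FreeLieAlgebra.of ℤ v3⁆⁆ = 0 := by
    rw [LieHom.map_lie, LieHom.map_lie, hα, hα, hα, h1, h2, h3]
    exact cubic_lie
  have hz2 := hle ((hker _).1 hz)
  rw [LieHom.mem_ker, LieHom.map_lie, LieHom.map_lie, hΨ, hΨ, hΨ, h1, h2, h3, chi_T, chi_C1,
    chi_C2] at hz2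
  have hz3 := congrFun (congrFun hz2 0) 3
  simp [Ring.lie_def] at hz3

end

end Pool.Agent.Y79.IA3
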